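import Pool.Agent.Q61.CN.Poly
/-!
# MP_c1dca2_ag: cyclic extensions, norms, and sections

Let `k` be a field of characteristic zero, for instance a number field, and let `E/k` be a cyclic extension of
degree `d`.  Let `n` be a multiple of `d`; if `d` is even let `n/d` be even.

Let `X` be a smooth geometrically connected curve over `k` with rational functions `h ∈ E ⊗ k(X)` and
`y ∈ k(X)` such that `N_{E/k}(h) = a yⁿ`, `a ∈ k^*`, and such that the divisors of the quotients of the
conjugates of `h` are divisible by `n`; for instance the divisors of the conjugates of `h` may be disjoint.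
So `X` is (up to this condition) any cyclic cover `a yⁿ = N_{E/k}(h)` of any curve.

We show: if `π₁(X) → G_k` has a section, then `a` is a norm from `E`.

So for all `a ∈ k^*` that are not norms from `E` the section conjecture holds for the curve `X` and for all
its open subcurves: there are neither sections nor rational points.  In particular for every number field `k`,
every cyclic extension `E = k(θ)` of odd degree `d` with the minimal polynomial `g` of `θ`, and every multiple
`n` of `d`, it holds for the smooth projective models of the superelliptic curves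

  `a yⁿ = g(x)`,   `a ∉ N(E^*)`,

of genus `(n - 2)(d - 1)/2`, and more generally for those of the curves `a yⁿ = N_{E/k}(H)(x)`, where `H` is a
polynomial over `E` that is coprime to its conjugates.  No condition on the ramification of `E/k` or on the
places where `a` is not a norm is needed; these may all divide `n`.  So the result is not a consequence of
Stix's theorem that the index of a curve with a section over a `p`-adic field is a power of `p`.

The fundamental group is described through valuations.  Let `U` be a smooth geometrically connected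
curve over `k` with function field `F`, let `Ω` be an algebraic closure of `F`, and let `F_U` be the
maximal extension of `F` inside `Ω` which is unramified over the closed points of `U`, that is, over
their local rings, which are valuation rings of `F`.  Then `π₁(U) = Gal(F_U/F)`, and the map
`π₁(U) → G_k` is the restriction of automorphisms to the algebraic closure of `k` in `Ω`.  All `a`, `h`, `y`
being given, the theorem holds for all fields `F` over `k` and all sets `U` of valuation rings of `F` over `k`,
so also for varieties of higher dimension.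

Proof.  Let `φ ∈ G_k` be a lift of a generator of `Gal(E/k)` and let `s` be a section.  The function
`φ(h)/h` is an `n`-th power `αⁿ` in `F_U`.  By Hilbert's theorem 90 for finite extensions of `k` we may
replace `α` by a constant multiple `u` which is fixed by `s(G_E)`.  Then `N(u)` is a constant of `k`.  Let
`R = ∏ φ^j(u)^(d-1-j)`; then `φ(R) = R N(u)/u^d`, so that `v = h R^(n/d)` is multiplied by a constant under `φ`
and therefore under `s(G_k)`.  A constant multiple `β v`, `β ∈ E^*`, is fixed by `s(G_k)`, and its `d`-th power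
is its norm `N(β) a yⁿ N(R)^(n/d)`, where `N(R)` is the power `N(u)^(d(d-1)/2)`.  As `(n/d)(d-1)` is
even, `N(β) a` is the `d`-th power of a function fixed by `s(G_k)`, so that of an element `c` of `k`, and
`a = N(c/β)`.
-/

set_option autoImplicit false
set_option maxHeartbeats 400000

namespace Pool.Agent.Results.MP_c1dca2_ag.NonNorms

open Module Polynomial

universe u v w x

section definitions

variable (k : Type u) (F : Type v) (Ω : Type w) [Field k] [Field F] [Field Ω] [Algebra k F]
  [Algebra F Ω] [Algebra k Ω]

/-- The inertia group of the valuation ring `W` of `Ω`, as a subgroup of `Gal(Ω/F)`: the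
automorphisms of `Ω` over `F` that map `W` onto itself and act as the identity on its residue
field. -/
noncomputable def inertia (W : ValuationSubring Ω) : Subgroup (Ω ≃ₐ[F] Ω) :=
  (W.inertiaSubgroup F).map (W.decompositionSubgroup F).subtype

/-- `F_U`, for a set `U` of valuation rings of `F`: the elements of `Ω` fixed by the inertia groups
of all valuation rings `W` of `Ω` with `W ∩ F ∈ U`.  If `Ω` is an algebraic closure of a field `F`
of characteristic zero, this is the maximal extension of `F` in `Ω` unramified over `U`. -/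
noncomputable def unramified (U : Set (ValuationSubring F)) : IntermediateField F Ω :=
  ⨅ W : {W : ValuationSubring Ω // W.comap (algebraMap F Ω) ∈ U},
    IntermediateField.fixedField (inertia F Ω W.1)

/-- The map `τ : M → M` acts as `σ : K → K` on the elements that the fields `K` and `M` have in
common when they are regarded as subfields of `Ω` through `i` and `j`. -/
def ActsAs {K M Ω : Type*} [Field K] [Field M] [Field Ω] (i : K →+* Ω) (j : M →+* Ω) (σ : K → K)
    (τ : M → M) : Prop :=
  ∀ c z, j z = i c → j (τ z) = i (σ c)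

/-- Let `k ⊆ K ⊆ Ω` and `F ⊆ M ⊆ Ω` be fields.  A splitting of `Gal(M/F) → Gal(K/k)`: a continuous
homomorphism `s` from `Gal(K/k)` to `Gal(M/F)` such that `s(σ)` acts as `σ` on the elements of
`K ∩ M`. -/
structure Splitting (K M : Type*) [Field K] [Field M] [Algebra k K] [Algebra F M] [Algebra K Ω]
    [Algebra M Ω] where
  /-- the homomorphism `Gal(K/k) → Gal(M/F)` -/
  toHom : (K ≃ₐ[k] K) →* (M ≃ₐ[F] M)
  cont : Continuous toHom
  compat : ∀ σ : K ≃ₐ[k] K, ActsAs (algebraMap K Ω) (algebraMap M Ω) σ (toHom σ)

/-- The sections of `π₁(U) = Gal(F_U/F) → G_k`: the continuous homomorphisms `s` from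
`G_k = Gal(k̄/k)` to `Gal(F_U/F)`, where `k̄` is the algebraic closure of `k` in `Ω`, such that
`s(σ)` acts as `σ` on the elements of `k̄`. -/
def GaloisSection (U : Set (ValuationSubring F)) : Type w :=
  Splitting k F Ω (algebraicClosure k Ω) (unramified F Ω U)

end definitions

section functions

variable {K : Type u} {E : Type x} {F : Type v} {Ω : Type w} [Field K] [Field E] [Algebra K E]
  [FiniteDimensional K E] [Field F] [Field Ω] [Algebra F Ω] [Algebra K Ω]

/-- The conjugate `σ(h) = ∑ σ(A_j) x_j` of the function `h = ∑ A_j x_j`, `A_j ∈ E`, `x_j ∈ F`, for an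
embedding `σ` of `E` into the algebraically closed field `Ω ⊇ F`. -/
noncomputable def conjugate {r : ℕ} (A : Fin r → E) (x : Fin r → F) (σ : E →ₐ[K] Ω) : Ω :=
  ∑ j, σ (A j) * algebraMap F Ω (x j)

/-- The element `z` is a unit of the valuation ring `W`: it has neither a zero nor a pole at the point
`W`. -/
def UnitAt (W : ValuationSubring Ω) (z : Ω) : Prop := z ≠ 0 ∧ z ∈ W ∧ z⁻¹ ∈ W

/-- The order of `z` is divisible by `n` at all points over the set `U` of valuation rings of `F`: it is
the order of the `n`-th power of an element of `F`. -/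
def OrderDivisible (U : Set (ValuationSubring F)) (n : ℕ) (z : Ω) : Prop :=
  ∀ W : ValuationSubring Ω, W.comap (algebraMap F Ω) ∈ U →
    ∃ t : F, t ≠ 0 ∧ UnitAt W (z / algebraMap F Ω t ^ n)

/-- The function `h = ∑ A_j x_j` is not zero and its norm, the product of its conjugates, is `a yⁿ`. -/
def HasNorm (Ω : Type w) [Field Ω] [Algebra F Ω] [Algebra K Ω] (n : ℕ) (a : K) {r : ℕ}
    (A : Fin r → E) (x : Fin r → F) (y : F) : Prop :=
  (∀ σ : E →ₐ[K] Ω, conjugate A x σ ≠ 0) ∧
    ∏ σ : E →ₐ[K] Ω, conjugate A x σ = algebraMap K Ω a * algebraMap F Ω y ^ n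

/-- The norm `N(H)` of the polynomial `H` over `E`, evaluated at the function `z ∈ F`: the product of the
values at `z` of the conjugates of `H`. -/
noncomputable def normAt (K : Type u) {E : Type x} {F : Type v} (Ω : Type w) [Field K] [Field E]
    [Algebra K E] [FiniteDimensional K E] [Field F] [Field Ω] [Algebra F Ω] [Algebra K Ω]
    (H : Polynomial E) (z : F) : Ω :=
  ∏ σ : E →ₐ[K] Ω, (H.map (σ : E →+* Ω)).eval (algebraMap F Ω z)

end functions

/-- The divisors of the conjugates of `h = ∑ A_j x_j` are disjoint on `U`: there is no point over `U` at which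
two different conjugates of `h` have zeros or poles. -/
def DisjointDivisors (K : Type u) {E : Type x} {F : Type v} (Ω : Type w) [Field K] [Field E]
    [Algebra K E] [Field F] [Field Ω] [Algebra F Ω] [Algebra K Ω] (U : Set (ValuationSubring F))
    {r : ℕ} (A : Fin r → E) (x : Fin r → F) : Prop :=
  ∀ W : ValuationSubring Ω, W.comap (algebraMap F Ω) ∈ U → ∀ σ τ : E →ₐ[K] Ω, σ ≠ τ →
    UnitAt W (conjugate A x σ) ∨ UnitAt W (conjugate A x τ)

section proof

open Pool.Agent.Q61.NF Pool.Agent.Q61.CN

variable {k : Type u} [Field k] [CharZero k] {E : Type x} [Field E] [Algebra k E]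
  [FiniteDimensional k E] [IsGalois k E] [IsCyclic (E ≃ₐ[k] E)] {n : ℕ} (hn : 0 < n)
  (hd : finrank k E ∣ n) (hpar : Even (n / finrank k E * (finrank k E - 1)))
  {F : Type v} {Ω : Type w} [Field F] [Field Ω] [Algebra k F] [Algebra F Ω] [Algebra k Ω]
  [IsScalarTower k F Ω] [IsAlgClosure F Ω] (U : Set (ValuationSubring F))
  (hU : ∀ O ∈ U, ∀ c : k, algebraMap k F c ∈ O) {a : k}

include hn hd hpar hU

lemma main {r : ℕ} (A : Fin r → E) (x : Fin r → F) (y : F) (hN : HasNorm Ω n a A x y)
    (hdiv : ∀ σ τ : E →ₐ[k] Ω, OrdDiv Ω U n (conjugate A x σ) (conjugate A x τ))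
    (hs : Nonempty (GaloisSection k F Ω U)) : ∃ e : E, Algebra.norm k e = a := by
  obtain ⟨s⟩ := hs
  have hcl : IsAlgClosed Ω := IsAlgClosure.isAlgClosed F
  have halg : Algebra.IsAlgebraic F Ω := IsAlgClosure.isAlgebraic
  let G : Pool.Agent.W620.SC.GSection k F Ω U := ⟨s.toHom, s.cont, s.compat⟩
  exact norm_of_section U hU G E n hn hd hpar a A x y hN.1 hN.2 hdiv

omit hn hd hpar [CharZero k] [FiniteDimensional k E] [IsGalois k E] [IsCyclic (E ≃ₐ[k] E)]
  [IsAlgClosure F Ω] in
lemma consts (W : ValuationSubring Ω) (hW : W.comap (algebraMap F Ω) ∈ U) (c : k) :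
    algebraMap k Ω c ∈ W := by
  rw [IsScalarTower.algebraMap_apply k F Ω]
  exact hU _ hW c

lemma poly (H : E[X]) (hcop : ∀ g : E ≃ₐ[k] E, g ≠ 1 → IsCoprime H (H.map (g : E →+* E)))
    (z y : F) (hy : y ≠ 0)
    (hN : normAt k Ω H z = algebraMap k Ω a * algebraMap F Ω y ^ n)
    (hs : Nonempty (GaloisSection k F Ω U)) : ∃ e : E, Algebra.norm k e = a := by
  classical
  have hcl : IsAlgClosed Ω := IsAlgClosure.isAlgClosed F
  by_cases ha : a = 0
  · exact ⟨0, by rw [Algebra.norm_zero, ha]⟩
  have hne : algebraMap k Ω a * algebraMap F Ω y ^ n ≠ 0 :=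
    mul_ne_zero ((_root_.map_ne_zero _).2 ha) (pow_ne_zero _ ((_root_.map_ne_zero _).2 hy))
  rw [← hN] at hne
  have h0 : ∀ σ : E →ₐ[k] Ω, (H.map (σ : E →+* Ω)).eval (algebraMap F Ω z) ≠ 0 := fun σ =>
    (Finset.prod_ne_zero_iff.1 hne) σ (Finset.mem_univ σ)
  have hH : H ≠ 0 := by
    rintro rfl
    have σ : E →ₐ[k] Ω := IsAlgClosed.lift
    exact h0 σ (by rw [Polynomial.map_zero, eval_zero])
  refine main hn hd hpar U hU (fun j : Fin (H.natDegree + 1) => H.coeff j)
    (fun j => z ^ (j : ℕ)) y ⟨?_, ?_⟩ ?_ hs
  · intro σ
    have h1 := val_poly (F := F) (σ : E →+* Ω) H z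
    change val (σ : E →+* Ω) _ _ ≠ 0
    rw [h1]
    exact h0 σ
  · rw [← hN]
    exact Finset.prod_congr rfl fun σ _ => val_poly (F := F) (σ : E →+* Ω) H z
  · exact ordDiv_poly U n hn a ha H hH hcop z y (consts U hU) h0 hN

end proof

/-- Let `k` be a field of characteristic zero, `E/k` a cyclic extension of degree `d` and `n ≥ 1` a multiple of
`d` such that `(n/d)(d-1)` is even.  Let `U` be a (smooth geometrically connected) curve over `k` with function
field `F`, given by its closed points (any set of valuation rings of `F` over `k`).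
(1) Let `h ∈ E ⊗ F`, `y ∈ F` and `a ∈ k` be such that `N(h) = a yⁿ` and the divisors on `U` of the quotients of
the conjugates of `h` are divisible by `n`.  If `π₁(U) → G_k` has a section, then `a` is a norm from `E`.
(2) The same holds if `N(h) = a yⁿ` and the divisors on `U` of the conjugates of `h` are disjoint.
(3) The same holds for all `U` if `a yⁿ = N(H)(z)` with `y, z ∈ F`, `y ≠ 0`, where `H` is a polynomial over `E`
that is coprime to its conjugates.
(4) The same holds for all `U` if `a yⁿ = g(z)` with `y, z ∈ F`, `y ≠ 0`, where `g` is the minimal polynomial of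
an element `θ` with `E = k(θ)`.
(5) Let `L/k` be a finite extension and let `M` be a finite extension of `E` and of `L`.  If `a` is a norm from
`M` to `L` then `a^[L:k]` is a norm from `E`.  So if `a` is not a norm from `E` then it is not a norm
from `EL` to `L` for all `L` of degree prime to `d`, and the assertions above apply to `EL/L`. -/
theorem result (k : Type u) [Field k] [CharZero k] (E : Type x) [Field E] [Algebra k E]
    [FiniteDimensional k E] [IsGalois k E] [IsCyclic (E ≃ₐ[k] E)] (n : ℕ) (hn : 0 < n)
    (hd : finrank k E ∣ n) (hpar : Even (n / finrank k E * (finrank k E - 1))) (a : k) :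
    (∀ (F : Type v) (Ω : Type w) [Field F] [Field Ω] [Algebra k F] [Algebra F Ω] [Algebra k Ω]
      [IsScalarTower k F Ω] [IsAlgClosure F Ω] (U : Set (ValuationSubring F)),
      (∀ O ∈ U, ∀ c : k, algebraMap k F c ∈ O) → Nonempty (GaloisSection k F Ω U) →
      (∀ (r : ℕ) (A : Fin r → E) (x : Fin r → F) (y : F), HasNorm Ω n a A x y →
        (∀ σ τ : E →ₐ[k] Ω, OrderDivisible U n (conjugate A x σ / conjugate A x τ)) →
          ∃ e : E, Algebra.norm k e = a) ∧
      (∀ (r : ℕ) (A : Fin r → E) (x : Fin r → F) (y : F), HasNorm Ω n a A x y →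
        DisjointDivisors k Ω U A x → ∃ e : E, Algebra.norm k e = a) ∧
      (∀ H : E[X], (∀ g : E ≃ₐ[k] E, g ≠ 1 → IsCoprime H (H.map (g : E →+* E))) →
        ∀ z y : F, y ≠ 0 → normAt k Ω H z = algebraMap k Ω a * algebraMap F Ω y ^ n →
          ∃ e : E, Algebra.norm k e = a) ∧
      (∀ θ : E, Algebra.adjoin k {θ} = ⊤ → ∀ z y : F, y ≠ 0 →
        aeval z (minpoly k θ) = algebraMap k F a * y ^ n → ∃ e : E, Algebra.norm k e = a)) ∧
    (∀ (L M : Type x) [Field L] [Field M] [Algebra k L] [Algebra k M] [Algebra L M] [Algebra E M]
      [IsScalarTower k L M] [IsScalarTower k E M] [FiniteDimensional k L] [FiniteDimensional L M]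
      [FiniteDimensional E M], (∃ e : M, Algebra.norm L e = algebraMap k L a) →
        ∃ e : E, Algebra.norm k e = a ^ finrank k L) := by
  refine ⟨?_, ?_⟩
  · intro F Ω _ _ _ _ _ _ _ U hU hs
    have hcl : IsAlgClosed Ω := IsAlgClosure.isAlgClosed F
    refine ⟨?_, ?_, ?_, ?_⟩
    · intro r A x y hN hdiv
      refine main hn hd hpar U hU A x y hN ?_ hs
      intro σ τ W hW
      obtain ⟨t, ht, h1, h2, h3⟩ := hdiv σ τ W hW
      refine ⟨t, ht, h2, ?_⟩
      rwa [inv_div] at h3
    · intro r A x y hN hdis
      by_cases ha : a = 0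
      · exact ⟨0, by rw [Algebra.norm_zero, ha]⟩
      refine main hn hd hpar U hU A x y hN ?_ hs
      exact Pool.Agent.Q61.NF.ordDiv_of_disjoint U n hn a ha A x y (consts U hU) hN.1 hN.2
        (fun W hW σ τ hst => hdis W hW σ τ hst)
    · intro H hcop z y hy hN
      exact poly hn hd hpar U hU H hcop z y hy hN hs
    · intro θ hθ z y hy hz
      have hint : IsIntegral k θ := Algebra.IsIntegral.isIntegral θ
      let pb := PowerBasis.ofAdjoinEqTop hint hθ
      have hgen : pb.gen = θ := PowerBasis.ofAdjoinEqTop_gen hint hθ
      refine poly hn hd hpar U hU (X - C θ) ?_ z y hy ?_ hs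
      · intro g hg
        rw [Polynomial.map_sub, map_X, map_C]
        refine isCoprime_X_sub_C_of_isUnit_sub ?_
        refine IsUnit.mk0 _ (sub_ne_zero.2 fun h => hg ?_)
        have h1 : (g : E →ₐ[k] E) = AlgHom.id k E := pb.algHom_ext (by rw [hgen]; exact h.symm)
        ext e
        exact DFunLike.congr_fun h1 e
      · have h1 := Pool.Agent.TH377.NC.prod_emb pb (B := Ω) fun t => algebraMap F Ω z - t
        have h2 : normAt k Ω (X - C θ) z = ∏ σ : E →ₐ[k] Ω, (algebraMap F Ω z - σ pb.gen) := by
          unfold normAt
          refine Finset.prod_congr rfl fun σ _ => ?_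
          rw [Polynomial.map_sub, map_X, map_C, eval_sub, eval_X, eval_C, hgen]
          rfl
        have h3 : (((minpoly k pb.gen).aroots Ω).map fun t => algebraMap F Ω z - t).prod =
            aeval (algebraMap F Ω z) (minpoly k θ) := by
          rw [hgen, aroots_def, ← eval_map_algebraMap]
          have h4 := (IsAlgClosed.splits ((minpoly k θ).map (algebraMap k Ω))).eval_eq_prod_roots_of_monic
            ((minpoly.monic hint).map _) (algebraMap F Ω z)
          exact h4.symm
        rw [h2, h1, h3, aeval_algebraMap_apply, hz, map_mul, map_pow,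
          ← IsScalarTower.algebraMap_apply k F Ω]
  · intro L M _ _ _ _ _ _ _ _ _ _ _ he
    obtain ⟨e, he⟩ := he
    refine ⟨Algebra.norm E e, ?_⟩
    rw [Algebra.norm_norm, ← Algebra.norm_norm (R := k) (S := L), he, Algebra.norm_algebraMap]

end Pool.Agent.Results.MP_c1dca2_ag.NonNorms
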