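import Mathlib
import Pool.Agent.Q284.SC.Fin2
import Pool.Agent.Q284.FDQ.App
import Pool.Agent.Y667.RP.Disc
import Pool.Agent.W672.FK.Lowf
import Pool.Agent.W307.RT.Tors

/-!
# The image in the pro-2 fundamental group of `E` of a locally geometric section, for a positive
proportion of the elliptic curves with full rational 2-torsion

All elliptic curves `E : y² = x³ + A x + B` over `ℚ` with full rational 2-torsion, ordered by the
naive height or by the absolute value of the minimal discriminant. For a positive proportion of them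
the following holds. Let `F` be a field over `ℚ` and `P ∈ E(F)`, for instance the function field of a
smooth curve `U` over `ℚ` with a map `P` to `E`, and let `s` be a section of `π₁(U) → G_ℚ` which is
given over `ℝ` and over all `ℚ_p` by points or cusps of `U` over these fields (a locally geometric
section, or Selmer section). Then there is a rational point `T` of `E`, `2 T = 0`, such that `P - T` is
divisible by all powers of `2` in `E(R)`, where `R` is the field of the elements fixed by `s`. So the
image of `s` in the pro-2 quotient of `π₁(E)` is the section given by `T`: the Kummer classes of `P`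
modulo all powers of `2`, restricted through `s` to `G_ℚ`, are the ones of `T`. No finiteness of
Tate-Shafarevich groups is assumed.

The fundamental group is described through valuations.  Let `U` be a smooth geometrically connected
curve over `k` with function field `F`, let `Ω` be an algebraic closure of `F`, and let `F_U` be the
maximal extension of `F` inside `Ω` which is unramified over the closed points of `U`, that is, over
their local rings, which are valuation rings of `F`.  Then `π₁(U) = Gal(F_U/F)`, and the map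
`π₁(U) → G_k` is the restriction of automorphisms to the algebraic closure of `k` in `Ω`.

Proof. The places which give `s` over `ℝ` and `ℚ_p` induce places of `R` with values in `ℝ` and `ℚ_p`.
Let `Q` be a point of `E` over `R`. The functions `x(Q) - e`, `e` a root of the cubic, have square
roots in `F_U` up to constants, so that they are squares in `R` up to rational numbers. The values of
`Q` at the places are local points with the same classes, so these classes are in the 2-Selmer group
of `E`. For a positive proportion of the curves it has only the classes of the four points of order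
dividing two, so `Q - T` is in `2 E(R)` for such a point `T`. Then iterate.
-/

set_option autoImplicit false

namespace Pool.Agent.Results.MP_c1dca2_ag.ProTwoSelmerSections

open Finset Filter Topology

/-- the curve `y² = x³ + A x + B` over `ℚ` -/
def E (A B : ℤ) : WeierstrassCurve ℚ := ⟨0, 0, 0, (A : ℚ), (B : ℚ)⟩

/-- the absolute value of the minimal discriminant of an elliptic curve `W` over `ℚ`: the smallest
absolute value of the discriminant of a Weierstrass equation `V` with integer coefficients which is
isomorphic to `W` over `ℚ` -/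
noncomputable def minDisc (W : WeierstrassCurve ℚ) : ℕ :=
  sInf {n : ℕ | ∃ (V : WeierstrassCurve ℤ) (C : WeierstrassCurve.VariableChange ℚ),
    C • W = V.map (Int.castRingHom ℚ) ∧ n = V.Δ.natAbs}

/-- the naive height of `y² = x³ + A x + B` is at most `Z` -/
def HeightLe (c : ℤ × ℤ) (Z : ℕ) : Prop := 4 * |c.1| ^ 3 ≤ Z ∧ 27 * c.2 ^ 2 ≤ Z

/-- the minimal discriminant of `y² = x³ + A x + B` is at most `Z` in absolute value -/
def DiscLe (c : ℤ × ℤ) (Z : ℕ) : Prop := minDisc (E c.1 c.2) ≤ Z

/-- The pairs `(A, B)` of integers such that `4 A³ + 27 B² ≠ 0`, there is no prime `p` with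
`p⁴ ∣ A` and `p⁶ ∣ B`, `Z/2 x Z/2` embeds in the group of the rational points of
`y² = x³ + A x + B`, and the size (`HeightLe` or `DiscLe`) is at most `Z`. Every elliptic curve over
`ℚ` with full rational 2-torsion is isomorphic to `E A B` for exactly one pair with the first three
properties. -/
def Fam (I : ℤ × ℤ → ℕ → Prop) (Z : ℕ) : Set (ℤ × ℤ) :=
  {c : ℤ × ℤ | 4 * c.1 ^ 3 + 27 * c.2 ^ 2 ≠ 0 ∧
    (∀ p : ℕ, p.Prime → ¬ ((p : ℤ) ^ 4 ∣ c.1 ∧ (p : ℤ) ^ 6 ∣ c.2)) ∧
    (∃ f : ZMod 2 × ZMod 2 →+ (E c.1 c.2).toAffine.Point, Function.Injective f) ∧ I c Z}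

/-- the proportion of the curves of `S` among the curves of size at most `Z` -/
noncomputable def proportion (I : ℤ × ℤ → ℕ → Prop) (S : Set (ℤ × ℤ)) (Z : ℕ) : ℝ :=
  ((Fam I Z ∩ S).ncard : ℝ) / (Fam I Z).ncard

lemma FamH_eq (H : ℕ) : Fam HeightLe H = (Pool.Agent.W307.RT.Cv 2 H : Set (ℤ × ℤ)) := by
  classical
  ext c
  have h : Pool.Agent.W307.RT.HasT 2 (Pool.Agent.W307.RT.Sh c.1 c.2) ↔
    ∃ f : ZMod 2 × ZMod 2 →+ (E c.1 c.2).toAffine.Point, Function.Injective f :=
    Pool.Agent.W307.RT.tors_iff
  unfold Fam HeightLe Pool.Agent.W307.RT.Cv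
  rw [Set.mem_ofPred_eq, mem_coe, mem_filter, h, mem_product, mem_Icc, mem_Icc]
  constructor
  · rintro ⟨h1, h2, h3, h4, h5⟩
    refine ⟨⟨?_, ?_⟩, h1, h4, h5, h2, h3⟩
    · rw [← abs_le]
      have h0 := abs_nonneg c.1
      rcases eq_or_lt_of_le h0 with h6 | h6
      · rw [← h6]; positivity
      · have : 1 ≤ |c.1| := h6
        nlinarith [mul_nonneg h0 h0, mul_self_nonneg (|c.1| - 1)]
    · rw [← abs_le]
      have h0 := abs_nonneg c.2
      rw [← sq_abs] at h5
      rcases eq_or_lt_of_le h0 with h6 | h6
      · rw [← h6]; positivity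
      · have : 1 ≤ |c.2| := h6
        nlinarith
  · rintro ⟨-, h1, h4, h5, h2, h3⟩
    exact ⟨h1, h2, h3, h4, h5⟩

lemma FamD_eq (D : ℕ) : Fam DiscLe D = (Pool.Agent.TH344.DS.Dv D : Set (ℤ × ℤ)) := by
  classical
  have h0 : Fam DiscLe D = Pool.Agent.W307.RS.DvS 2 D := by
    ext c
    have h : Pool.Agent.W307.RT.HasT 2 (Pool.Agent.W307.RT.Sh c.1 c.2) ↔
        ∃ f : ZMod 2 × ZMod 2 →+ (E c.1 c.2).toAffine.Point, Function.Injective f :=
      Pool.Agent.W307.RT.tors_iff
    unfold Fam Pool.Agent.W307.RS.DvS
    rw [Set.mem_ofPred_eq, Set.mem_ofPred_eq, h]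
    exact Iff.rfl
  rw [h0]
  unfold Pool.Agent.TH344.DS.Dv
  rw [dif_pos (Pool.Agent.TH344.DS.excd.1 D), Set.Finite.coe_toFinset]

/-- The number of these curves tends to infinity (ordering by height). -/
lemma tendstoH : Tendsto (fun Z : ℕ => (Fam HeightLe Z).ncard) atTop atTop := by
  simp only [FamH_eq, Set.ncard_coe_finset]
  exact Pool.Agent.W307.RT.tendsto_of_low Pool.Agent.W672.FK.lowf

/-- The number of these curves tends to infinity (ordering by the minimal discriminant). -/
lemma tendstoD : Tendsto (fun Z : ℕ => (Fam DiscLe Z).ncard) atTop atTop := by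
  have h1 := Pool.Agent.W307.RT.tendsto_of_low Pool.Agent.W672.FK.lowf
  have h2 : Tendsto (fun D : ℕ => (Pool.Agent.W307.RT.Cv 2 (D / 32)).card) atTop atTop :=
    h1.comp (Nat.tendsto_div_const_atTop (by norm_num))
  obtain ⟨hD1, hD2, hD3⟩ := Pool.Agent.TH344.DS.excd
  refine tendsto_atTop_mono (fun D => ?_) h2
  have h3 : (Pool.Agent.TH344.DS.Dv D : Set (ℤ × ℤ)) = Pool.Agent.W307.RS.DvS 2 D := by
    unfold Pool.Agent.TH344.DS.Dv
    rw [dif_pos (hD1 D), Set.Finite.coe_toFinset]
  rw [FamD_eq, h3, ← Set.ncard_coe_finset]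
  exact Set.ncard_le_ncard (Pool.Agent.W307.RS.Cv_sub Pool.Agent.W554.RS.mdl 2 (D / 32) D
    (Nat.mul_div_le D 32)) (hD1 D)

/-- the curve `y² = x³ + A x + B` over the integers -/
def W (A B : ℤ) : WeierstrassCurve.Affine ℤ := ⟨0, 0, 0, A, B⟩

/-- the points of `y² = x³ + A x + B` over a field -/
abbrev Pt (A B : ℤ) (K : Type) [Field K] : Type := ((W A B).baseChange K).Point

section sections

variable (k F Ω : Type) [Field k] [Field F] [Field Ω] [Algebra F Ω] [Algebra k Ω]

/-- The inertia group of the valuation ring `V` of `Ω`, as a subgroup of `Gal(Ω/F)`: the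
automorphisms of `Ω` over `F` that map `V` onto itself and act as the identity on its residue
field. -/
noncomputable def inertia (V : ValuationSubring Ω) : Subgroup (Ω ≃ₐ[F] Ω) :=
  (V.inertiaSubgroup F).map (V.decompositionSubgroup F).subtype

/-- `F_U`, for a set `U` of valuation rings of `F`: the elements of `Ω` fixed by the inertia groups
of all valuation rings `V` of `Ω` with `V ∩ F ∈ U`.  If `Ω` is an algebraic closure of a field `F`
of characteristic zero, this is the maximal extension of `F` in `Ω` unramified over `U`. -/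
noncomputable def unramified (U : Set (ValuationSubring F)) : IntermediateField F Ω :=
  ⨅ V : {V : ValuationSubring Ω // V.comap (algebraMap F Ω) ∈ U},
    IntermediateField.fixedField (inertia F Ω V.1)

/-- The map `τ : M → M` acts as `σ : K → K` on the elements that the fields `K` and `M` have in
common when they are regarded as subfields of `Ω` through `i` and `j`. -/
def ActsAs {K M Ω : Type} [Field K] [Field M] [Field Ω] (i : K →+* Ω) (j : M →+* Ω) (σ : K → K)
    (τ : M → M) : Prop :=
  ∀ c z, j z = i c → j (τ z) = i (σ c)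

/-- Let `k ⊆ K ⊆ Ω` and `F ⊆ M ⊆ Ω` be fields.  A splitting of `Gal(M/F) → Gal(K/k)`: a continuous
homomorphism `s` from `Gal(K/k)` to `Gal(M/F)` such that `s(σ)` acts as `σ` on the elements of
`K ∩ M`. -/
structure Splitting (K M : Type) [Field K] [Field M] [Algebra k K] [Algebra F M] [Algebra K Ω]
    [Algebra M Ω] where
  /-- the homomorphism `Gal(K/k) → Gal(M/F)` -/
  toHom : (K ≃ₐ[k] K) →* (M ≃ₐ[F] M)
  cont : Continuous toHom
  compat : ∀ σ : K ≃ₐ[k] K, ActsAs (algebraMap K Ω) (algebraMap M Ω) σ (toHom σ)

/-- The sections of `π₁(U) = Gal(F_U/F) → G_k`: the continuous homomorphisms `s` from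
`G_k = Gal(k̄/k)` to `Gal(F_U/F)`, where `k̄` is the algebraic closure of `k` in `Ω`, such that
`s(σ)` acts as `σ` on the elements of `k̄`. -/
abbrev GaloisSection (U : Set (ValuationSubring F)) : Type :=
  Splitting k F Ω (algebraicClosure k Ω) (unramified F Ω U)

end sections

/-- A place of the field `M` with values in the field `C`: a valuation ring with an embedding of its
residue field in `C`, given as a homomorphism `ρ` on the valuation ring whose kernel is the maximal
ideal. -/
structure Place (M C : Type) [Field M] [Field C] where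
  /-- the valuation ring -/
  V : ValuationSubring M
  /-- the residue map -/
  ρ : V →+* C
  unit : ∀ x : V, ρ x ≠ 0 → (x : M)⁻¹ ∈ V

/-- The place `p` of `M` turns the map `σ : M → M` into `τ : C → C`. -/
def Turns {M C : Type} [Field M] [Field C] (p : Place M C) (σ : M → M) (τ : C → C) : Prop :=
  ∀ x (hx : x ∈ p.V), ∃ h' : σ x ∈ p.V, p.ρ ⟨σ x, h'⟩ = τ (p.ρ ⟨x, hx⟩)

/-- The splitting `s` is given over the field `L` with algebraic closure `C` by the place `p` of `M`
with values in `C` (that is, for `M = F_U`, by a point of `U` or a cusp over `L`): for all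
`τ ∈ Gal(C/L)` there is `σ` such that `p` turns the action of `s(σ)` into the one of `τ`. (Such a `σ`
is the restriction of `τ` to `ℚ̄ ⊆ F_U`, embedded in `C` by `p`.) -/
def GivenBy {k F Ω K M : Type} [Field k] [Field F] [Field Ω] [Field K] [Field M] [Algebra k K]
    [Algebra F M] [Algebra K Ω] [Algebra M Ω] (s : Splitting k F Ω K M) (L : Type) {C : Type}
    [Field L] [Field C] [Algebra L C] (p : Place M C) : Prop :=
  ∀ τ : C ≃ₐ[L] C, ∃ σ, Turns p (s.toHom σ) τ

/-- The splitting is locally geometric: it is given over `ℝ` and over all `ℚ_q` by places. -/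
def LocallyGeometric {k F Ω K M : Type} [Field k] [Field F] [Field Ω] [Field K] [Field M]
    [Algebra k K] [Algebra F M] [Algebra K Ω] [Algebra M Ω] (s : Splitting k F Ω K M) : Prop :=
  (∃ p : Place M (AlgebraicClosure ℝ), GivenBy s ℝ p) ∧
    ∀ (q : ℕ) [Fact q.Prime], ∃ p : Place M (AlgebraicClosure ℚ_[q]), GivenBy s ℚ_[q] p

/-- the field of the elements of `M` fixed by all `s(σ)` -/
def FixedField {k F Ω K M : Type} [Field k] [Field F] [Field Ω] [Field K] [Field M]
    [Algebra k K] [Algebra F M] [Algebra K Ω] [Algebra M Ω] (s : Splitting k F Ω K M) : Type :=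
  IntermediateField.fixedField s.toHom.range

noncomputable instance fieldFixed {k F Ω K M : Type} [Field k] [Field F] [Field Ω] [Field K]
    [Field M] [Algebra k K] [Algebra F M] [Algebra K Ω] [Algebra M Ω] (s : Splitting k F Ω K M) :
    Field (FixedField s) :=
  (inferInstance : Field (IntermediateField.fixedField s.toHom.range))

noncomputable instance algebraFixed {k F Ω K M : Type} [Field k] [Field F] [Field Ω] [Field K]
    [Field M] [Algebra k K] [Algebra F M] [Algebra K Ω] [Algebra M Ω] (s : Splitting k F Ω K M) :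
    Algebra F (FixedField s) :=
  (inferInstance : Algebra F (IntermediateField.fixedField s.toHom.range))

instance charZeroFixed {k F Ω K M : Type} [Field k] [Field F] [Field Ω] [Field K]
    [Field M] [Algebra k K] [Algebra F M] [Algebra K Ω] [Algebra M Ω] (s : Splitting k F Ω K M)
    [CharZero F] : CharZero (FixedField s) :=
  charZero_of_injective_algebraMap (algebraMap F (FixedField s)).injective

open Classical in
/-- Let `R` be an extension of `F` and `P` a point over `F` of `E : y² = x³ + A x + B`. There is a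
rational point `T` of `E`, `2 T = 0`, such that `P - T` is in `2 ^ m E(R)` for all `m`. -/
def RationalProTwo {A B : ℤ} {F : Type} (R : Type) [Field F] [Field R] [CharZero R] [Algebra F R]
    (P : Pt A B F) : Prop :=
  ∃ T : Pt A B ℚ, T + T = 0 ∧ ∀ m : ℕ, ∃ S : Pt A B R,
    WeierstrassCurve.Affine.Point.baseChange F R P =
      WeierstrassCurve.Affine.Point.baseChange ℚ R T + 2 ^ m • S

/-- For all locally geometric sections `s` of `π₁(U) → G_k` and all points `P` over `F` of
`E : y² = x³ + A x + B` there is a rational point `T` of `E`, `2 T = 0`, such that `P - T` is divisible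
by all powers of `2` over the field of the elements fixed by `s`. -/
def AllSectionsRational (k F Ω : Type) [Field k] [Field F] [CharZero F] [Field Ω] [Algebra F Ω]
    [Algebra k Ω] (U : Set (ValuationSubring F)) (A B : ℤ) : Prop :=
  ∀ s : GaloisSection k F Ω U, LocallyGeometric s →
    ∀ P : Pt A B F, RationalProTwo (FixedField s) P

/-- The curves `E : y² = x³ + c.1 x + c.2` such that for all fields `F` over `ℚ`, all sets `U` of
valuation rings of `F` over `ℚ`, all locally geometric sections `s` of `π₁(U) → G_ℚ` and all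
`P ∈ E(F)` there is a rational point `T` of `E`, `2 T = 0`, such that `P - T` is divisible by all
powers of `2` over the field of the elements fixed by `s`. -/
def ProTwoRational : Set (ℤ × ℤ) :=
  {c | ∀ (F Ω : Type) [Field F] [CharZero F] [Field Ω] [Algebra ℚ F] [Algebra F Ω] [Algebra ℚ Ω]
    [IsScalarTower ℚ F Ω] [IsAlgClosure F Ω] (U : Set (ValuationSubring F)),
    (∀ O ∈ U, ∀ a : ℚ, algebraMap ℚ F a ∈ O) → AllSectionsRational ℚ F Ω U c.1 c.2}

open Classical in
lemma rat_of {A B : ℤ} {F : Type} (R : Type) [Field F] [Field R] [CharZero R] [Algebra F R]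
    (P : Pt A B F) (h : ∀ P' : Pt A B R, ∃ T : Pt A B ℚ, T + T = 0 ∧ ∀ m : ℕ, ∃ S : Pt A B R,
      P' = WeierstrassCurve.Affine.Point.baseChange ℚ R T + 2 ^ m • S) : RationalProTwo R P :=
  h _

open Classical in
lemma all_of {k F Ω : Type} [Field k] [Field F] [CharZero F] [Field Ω] [Algebra F Ω] [Algebra k Ω]
    {U : Set (ValuationSubring F)} {A B : ℤ}
    (h : ∀ G : Pool.Agent.W620.SC.GSection k F Ω U, Pool.Agent.Q284.SC.LocGeo G →
      ∀ P : ((W A B).baseChange (Pool.Agent.Q284.SC.FX G)).Point,
      ∃ T : ((W A B).baseChange ℚ).Point, T + T = 0 ∧ ∀ m : ℕ, ∃ S,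
        P = WeierstrassCurve.Affine.Point.baseChange ℚ (Pool.Agent.Q284.SC.FX G) T + 2 ^ m • S) :
    AllSectionsRational k F Ω U A B := by
  rintro s ⟨⟨p, hp⟩, h2⟩ P
  refine rat_of (FixedField s) P fun P' => ?_
  refine h ⟨s.toHom, s.cont, s.compat⟩ ⟨⟨⟨p.V, p.ρ, p.unit⟩, hp⟩, fun q _ => ?_⟩ P'
  obtain ⟨p, hp⟩ := h2 q
  exact ⟨⟨p.V, p.ρ, p.unit⟩, hp⟩

lemma mem_of {c : ℤ × ℤ} (h : Pool.Agent.Q284.FDQ.PR c) : c ∈ ProTwoRational := by
  obtain ⟨e1, e2, e3, hp, h12, h13, h23, h4, hc⟩ := h
  intro F Ω _ _ _ _ _ _ _ _ U hU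
  have hcl : IsAlgClosed Ω := IsAlgClosure.isAlgClosed F
  have halg : Algebra.IsAlgebraic F Ω := IsAlgClosure.isAlgebraic
  exact all_of fun G hG P => Pool.Agent.Q284.SC.main1' hU hG hp h12 h13 h23 h4 hc P

/-- **Theorem.** Order the elliptic curves over `ℚ` with full rational 2-torsion by the naive height
or by the absolute value of the minimal discriminant. For both orderings there are finitely many
curves of size at most `Z`, their number tends to infinity with `Z`, and a positive proportion of the
curves (the lower density is positive) belongs to `ProTwoRational`: in the pro-2 quotient of the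
fundamental group of the curve the locally geometric sections are given by rational points. -/
theorem result : ∀ I : ℤ × ℤ → ℕ → Prop, I = HeightLe ∨ I = DiscLe →
    (∀ Z : ℕ, (Fam I Z).Finite) ∧ Tendsto (fun Z : ℕ => (Fam I Z).ncard) atTop atTop ∧
    ∃ δ : ℝ, 0 < δ ∧ ∀ᶠ Z : ℕ in atTop, δ ≤ proportion I ProTwoRational Z := by
  classical
  have h0 : ∃ c : ℝ, 0 < c ∧ ∃ H0 : ℕ, ∀ H : ℕ, H0 ≤ H →
      c * ((Pool.Agent.W307.RT.Cv 2 H).card : ℝ) ≤
        (((Pool.Agent.W307.RT.Cv 2 H).filter Pool.Agent.Q284.FDQ.PR).card : ℝ) := by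
    obtain ⟨c, hc, H0, h⟩ := Pool.Agent.Q284.FDQ.curvesPR
    refine ⟨c, hc, H0, fun H hH => (h H hH).trans
      (Nat.cast_le.2 (card_le_card fun k hk => ?_))⟩
    rw [mem_filter] at hk ⊢
    exact hk
  have hfin : ∀ I : ℤ × ℤ → ℕ → Prop, I = HeightLe ∨ I = DiscLe → ∀ Z : ℕ, (Fam I Z).Finite := by
    rintro I (rfl | rfl) Z
    · rw [FamH_eq]
      exact finite_toSet _
    · rw [FamD_eq]
      exact finite_toSet _
  intro I hI
  refine ⟨hfin I hI, ?_, ?_⟩
  · rcases hI with rfl | rfl
    · exact tendstoH
    · exact tendstoD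
  · rcases hI with rfl | rfl
    · obtain ⟨c, hc, H0, h⟩ := h0
      refine ⟨c, hc, ?_⟩
      filter_upwards [eventually_ge_atTop H0, tendstoH.eventually_ge_atTop 1] with H hH hH1
      unfold proportion
      rw [le_div_iff₀ (by exact_mod_cast hH1)]
      have e1 : (Fam HeightLe H).ncard = (Pool.Agent.W307.RT.Cv 2 H).card := by
        rw [FamH_eq, Set.ncard_coe_finset]
      rw [e1]
      refine (h H hH).trans (Nat.cast_le.2 ?_)
      rw [← Set.ncard_coe_finset]
      refine Set.ncard_le_ncard (fun k hk => ?_) (Set.Finite.inter_of_left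
        (hfin _ (Or.inl rfl) _) _)
      rw [mem_coe, mem_filter] at hk
      refine ⟨?_, mem_of hk.2⟩
      rw [FamH_eq, mem_coe]
      exact hk.1
    · obtain ⟨c, hc, H0, h⟩ := Pool.Agent.Y667.RP.disc_of_height Pool.Agent.Q284.FDQ.PR h0
      refine ⟨c, hc, ?_⟩
      filter_upwards [eventually_ge_atTop H0, tendstoD.eventually_ge_atTop 1] with H hH hH1
      unfold proportion
      rw [le_div_iff₀ (by exact_mod_cast hH1)]
      have e1 : (Fam DiscLe H).ncard = (Pool.Agent.TH344.DS.Dv H).card := by
        rw [FamD_eq, Set.ncard_coe_finset]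
      rw [e1]
      refine (h H hH).trans (Nat.cast_le.2 ?_)
      rw [← Set.ncard_coe_finset]
      refine Set.ncard_le_ncard (fun k hk => ?_) (Set.Finite.inter_of_left
        (hfin _ (Or.inr rfl) _) _)
      rw [mem_coe, mem_filter] at hk
      refine ⟨?_, mem_of hk.2⟩
      rw [FamD_eq, mem_coe]
      exact hk.1

end Pool.Agent.Results.MP_c1dca2_ag.ProTwoSelmerSections
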