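import Mathlib
import Pool.Agent.Y667.QK.Main0
import Pool.Agent.Y388.QK.Deg
import Pool.Agent.Y388.QK.Flip
import Pool.Agent.Q284.SC.Fin2
import Pool.Agent.W672.FK.Lowf
import Pool.Agent.W307.RT.Tors
import Pool.Agent.Y679.Cr.Conv
import Pool.Agent.Y679.Cr.Dens
import Pool.Agent.Q323.CO.List
import Pool.Agent.Q323.ZT.Tw
import Pool.Agent.Q323.SC.Steps

/-!
# The image in the pro-2 fundamental group of locally geometric sections, for `2 ^ m` quadratic twists
at the same time

All elliptic curves `E : y² = x³ + A x + B` over `ℚ` with full rational 2-torsion, ordered by the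
naive height, by the absolute value of the minimal discriminant or by the conductor. For every `m` and
`N` there is a finite list of tuples `(q_1 q'_1, ..., q_m q'_m)` of products of two primes, the `2 m`
primes distinct and larger than `N`, and `δ > 0` such that for all large `Z` for some tuple `d` of the
list at least a proportion `δ` of the curves of size at most `Z` has the following property for ALL
the `2 ^ m` quadratic twists `E' = E^D`, `D = ∏_{i ∈ T} d_i`. Let `F` be a field over `ℚ` and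
`P ∈ E'(F)`, for instance the function field of a curve `X` with a map `P` to `E'`, let `U` be a set of
valuation rings of `F` over `ℚ`, for instance the one of the closed points of `X` (or of an open
subset), and let `s` be a section of `π₁(U) → G_ℚ` which is locally geometric: over `ℝ` and all `ℚ_p`
it is given by a place. Then there is a rational point `T` of `E'` such that `P - T` is in
`2 ^ m E'(R)` for all `m`, `R` the field of the elements of `F_U` fixed by `s`: in the pro-2 quotient of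
`π₁(E')` the image of `s` is the section of the rational point `T`. One tuple of the list has this
property for arbitrarily large `Z`.
-/

set_option autoImplicit false

namespace Pool.Agent.Results.MP_c1dca2_ag.SimultaneousTwists

open Finset Filter Topology

/-- the curve `y² = x³ + A x + B` over `ℚ` -/
def E (A B : ℤ) : WeierstrassCurve ℚ := ⟨0, 0, 0, (A : ℚ), (B : ℚ)⟩

/-- the absolute value of the minimal discriminant of an elliptic curve `W` over `ℚ`: the smallest
absolute value of the discriminant of a Weierstrass equation `V` with integer coefficients which is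
isomorphic to `W` over `ℚ` -/
noncomputable def minDisc (W : WeierstrassCurve ℚ) : ℕ :=
  sInf {n : ℕ | ∃ (V : WeierstrassCurve ℤ) (C : WeierstrassCurve.VariableChange ℚ),
    C • W = V.map (Int.castRingHom ℚ) ∧ n = V.Δ.natAbs}

/-- the naive height of `y² = x³ + A x + B` is at most `Z` -/
def HeightLe (c : ℤ × ℤ) (Z : ℕ) : Prop := 4 * |c.1| ^ 3 ≤ Z ∧ 27 * c.2 ^ 2 ≤ Z

/-- the minimal discriminant of `y² = x³ + A x + B` is at most `Z` in absolute value -/
def DiscLe (c : ℤ × ℤ) (Z : ℕ) : Prop := minDisc (E c.1 c.2) ≤ Z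

/-- The prime-to-6 part of the conductor of `y² = x³ + A x + B` (there is no prime `p` with `p⁴ ∣ A`
and `p⁶ ∣ B`): the product over the primes `p ≥ 5` dividing `4 A³ + 27 B²` of `p` (multiplicative
reduction: `p ∤ A`) or `p²` (additive reduction: `p ∣ A`) -/
def Cond6 (c : ℤ × ℤ) : ℕ :=
  ∏ p ∈ (Int.natAbs (4 * c.1 ^ 3 + 27 * c.2 ^ 2)).primeFactors.filter (fun p => 5 ≤ p),
    if (p : ℤ) ∣ c.1 then p ^ 2 else p

/-- the admissible factors: functions with values between `1` and `2 ^ 8 * 3 ^ 5`, for instance the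
part of the conductor composed of the primes 2 and 3, or `f = 1` -/
def Factor (f : ℤ × ℤ → ℕ) : Prop := ∀ c, 1 ≤ f c ∧ f c ≤ 2 ^ 8 * 3 ^ 5

/-- the conductor (its prime-to-6 part times the factor `f`) of `y² = x³ + A x + B` is at most `Z` -/
def CondLe (f : ℤ × ℤ → ℕ) (c : ℤ × ℤ) (Z : ℕ) : Prop := f c * Cond6 c ≤ Z

/-- The pairs `(A, B)` of integers such that `4 A³ + 27 B² ≠ 0`, there is no prime `p` with
`p⁴ ∣ A` and `p⁶ ∣ B`, `Z/2 x Z/2` embeds in the group of the rational points of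
`y² = x³ + A x + B`, and the size (`HeightLe`, `DiscLe` or `CondLe f`) is at most `Z`. Every
elliptic curve over `ℚ` with full rational 2-torsion is isomorphic to `E A B` for exactly one pair
with the first three properties. -/
def Fam (I : ℤ × ℤ → ℕ → Prop) (Z : ℕ) : Set (ℤ × ℤ) :=
  {c : ℤ × ℤ | 4 * c.1 ^ 3 + 27 * c.2 ^ 2 ≠ 0 ∧
    (∀ p : ℕ, p.Prime → ¬ ((p : ℤ) ^ 4 ∣ c.1 ∧ (p : ℤ) ^ 6 ∣ c.2)) ∧
    (∃ f : ZMod 2 × ZMod 2 →+ (E c.1 c.2).toAffine.Point, Function.Injective f) ∧ I c Z}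

/-- the proportion of the curves of `S` among the curves of size at most `Z` -/
noncomputable def proportion (I : ℤ × ℤ → ℕ → Prop) (S : Set (ℤ × ℤ)) (Z : ℕ) : ℝ :=
  ((Fam I Z ∩ S).ncard : ℝ) / (Fam I Z).ncard

lemma FamH_eq (H : ℕ) : Fam HeightLe H = (Pool.Agent.W307.RT.Cv 2 H : Set (ℤ × ℤ)) := by
  classical
  ext c
  have h : Pool.Agent.W307.RT.HasT 2 (Pool.Agent.W307.RT.Sh c.1 c.2) ↔
    ∃ f : ZMod 2 × ZMod 2 →+ (E c.1 c.2).toAffine.Point, Function.Injective f :=
    Pool.Agent.W307.RT.tors_iff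
  unfold Fam HeightLe Pool.Agent.W307.RT.Cv
  rw [Set.mem_ofPred_eq, mem_coe, mem_filter, h, mem_product, mem_Icc, mem_Icc]
  constructor
  · rintro ⟨h1, h2, h3, h4, h5⟩
    refine ⟨⟨?_, ?_⟩, h1, h4, h5, h2, h3⟩
    · rw [← abs_le]
      have h0 := abs_nonneg c.1
      rcases eq_or_lt_of_le h0 with h6 | h6
      · rw [← h6]; positivity
      · have : 1 ≤ |c.1| := h6
        nlinarith [mul_nonneg h0 h0, mul_self_nonneg (|c.1| - 1)]
    · rw [← abs_le]
      have h0 := abs_nonneg c.2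
      rw [← sq_abs] at h5
      rcases eq_or_lt_of_le h0 with h6 | h6
      · rw [← h6]; positivity
      · have : 1 ≤ |c.2| := h6
        nlinarith
  · rintro ⟨-, h1, h4, h5, h2, h3⟩
    exact ⟨h1, h2, h3, h4, h5⟩

lemma FamD_eq (D : ℕ) : Fam DiscLe D = (Pool.Agent.TH344.DS.Dv D : Set (ℤ × ℤ)) := by
  classical
  have h0 : Fam DiscLe D = Pool.Agent.W307.RS.DvS 2 D := by
    ext c
    have h : Pool.Agent.W307.RT.HasT 2 (Pool.Agent.W307.RT.Sh c.1 c.2) ↔
        ∃ f : ZMod 2 × ZMod 2 →+ (E c.1 c.2).toAffine.Point, Function.Injective f :=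
      Pool.Agent.W307.RT.tors_iff
    unfold Fam Pool.Agent.W307.RS.DvS
    rw [Set.mem_ofPred_eq, Set.mem_ofPred_eq, h]
    exact Iff.rfl
  rw [h0]
  unfold Pool.Agent.TH344.DS.Dv
  rw [dif_pos (Pool.Agent.TH344.DS.excd.1 D), Set.Finite.coe_toFinset]

/-- The number of these curves tends to infinity (ordering by height). -/
lemma tendstoH : Tendsto (fun Z : ℕ => (Fam HeightLe Z).ncard) atTop atTop := by
  simp only [FamH_eq, Set.ncard_coe_finset]
  exact Pool.Agent.W307.RT.tendsto_of_low Pool.Agent.W672.FK.lowf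

/-- The number of these curves tends to infinity (ordering by the minimal discriminant). -/
lemma tendstoD : Tendsto (fun Z : ℕ => (Fam DiscLe Z).ncard) atTop atTop := by
  have h1 := Pool.Agent.W307.RT.tendsto_of_low Pool.Agent.W672.FK.lowf
  have h2 : Tendsto (fun D : ℕ => (Pool.Agent.W307.RT.Cv 2 (D / 32)).card) atTop atTop :=
    h1.comp (Nat.tendsto_div_const_atTop (by norm_num))
  obtain ⟨hD1, hD2, hD3⟩ := Pool.Agent.TH344.DS.excd
  refine tendsto_atTop_mono (fun D => ?_) h2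
  have h3 : (Pool.Agent.TH344.DS.Dv D : Set (ℤ × ℤ)) = Pool.Agent.W307.RS.DvS 2 D := by
    unfold Pool.Agent.TH344.DS.Dv
    rw [dif_pos (hD1 D), Set.Finite.coe_toFinset]
  rw [FamD_eq, h3, ← Set.ncard_coe_finset]
  exact Set.ncard_le_ncard (Pool.Agent.W307.RS.Cv_sub Pool.Agent.W554.RS.mdl 2 (D / 32) D
    (Nat.mul_div_le D 32)) (hD1 D)

/-- The tuples `(q_1 q'_1, ..., q_m q'_m)`, where the `q_i` and `q'_i` are `2 m` distinct primes, all
larger than `N`. -/
def Tuple {m : ℕ} (N : ℕ) (d : Fin m → ℕ) : Prop :=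
  ∃ q q' : Fin m → ℕ, (∀ i, d i = q i * q' i) ∧ (∀ i, (q i).Prime ∧ N < q i) ∧
    (∀ i, (q' i).Prime ∧ N < q' i) ∧ Function.Injective q ∧ Function.Injective q' ∧
    ∀ i j, q i ≠ q' j

/-- the curve `y² = x³ + A x + B` over the integers -/
def W (A B : ℤ) : WeierstrassCurve.Affine ℤ := ⟨0, 0, 0, A, B⟩

/-- the points of `y² = x³ + A x + B` over a field -/
abbrev Pt (A B : ℤ) (K : Type) [Field K] : Type := ((W A B).baseChange K).Point

section sections

variable (k F Ω : Type) [Field k] [Field F] [Field Ω] [Algebra F Ω] [Algebra k Ω]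

/-- The inertia group of the valuation ring `V` of `Ω`, as a subgroup of `Gal(Ω/F)`: the
automorphisms of `Ω` over `F` that map `V` onto itself and act as the identity on its residue
field. -/
noncomputable def inertia (V : ValuationSubring Ω) : Subgroup (Ω ≃ₐ[F] Ω) :=
  (V.inertiaSubgroup F).map (V.decompositionSubgroup F).subtype

/-- `F_U`, for a set `U` of valuation rings of `F`: the elements of `Ω` fixed by the inertia groups
of all valuation rings `V` of `Ω` with `V ∩ F ∈ U`.  If `Ω` is an algebraic closure of a field `F`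
of characteristic zero, this is the maximal extension of `F` in `Ω` unramified over `U`. -/
noncomputable def unramified (U : Set (ValuationSubring F)) : IntermediateField F Ω :=
  ⨅ V : {V : ValuationSubring Ω // V.comap (algebraMap F Ω) ∈ U},
    IntermediateField.fixedField (inertia F Ω V.1)

/-- The map `τ : M → M` acts as `σ : K → K` on the elements that the fields `K` and `M` have in
common when they are regarded as subfields of `Ω` through `i` and `j`. -/
def ActsAs {K M Ω : Type} [Field K] [Field M] [Field Ω] (i : K →+* Ω) (j : M →+* Ω) (σ : K → K)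
    (τ : M → M) : Prop :=
  ∀ c z, j z = i c → j (τ z) = i (σ c)

/-- Let `k ⊆ K ⊆ Ω` and `F ⊆ M ⊆ Ω` be fields.  A splitting of `Gal(M/F) → Gal(K/k)`: a continuous
homomorphism `s` from `Gal(K/k)` to `Gal(M/F)` such that `s(σ)` acts as `σ` on the elements of
`K ∩ M`. -/
structure Splitting (K M : Type) [Field K] [Field M] [Algebra k K] [Algebra F M] [Algebra K Ω]
    [Algebra M Ω] where
  /-- the homomorphism `Gal(K/k) → Gal(M/F)` -/
  toHom : (K ≃ₐ[k] K) →* (M ≃ₐ[F] M)
  cont : Continuous toHom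
  compat : ∀ σ : K ≃ₐ[k] K, ActsAs (algebraMap K Ω) (algebraMap M Ω) σ (toHom σ)

/-- The sections of `π₁(U) = Gal(F_U/F) → G_k`: the continuous homomorphisms `s` from
`G_k = Gal(k̄/k)` to `Gal(F_U/F)`, where `k̄` is the algebraic closure of `k` in `Ω`, such that
`s(σ)` acts as `σ` on the elements of `k̄`. -/
abbrev GaloisSection (U : Set (ValuationSubring F)) : Type :=
  Splitting k F Ω (algebraicClosure k Ω) (unramified F Ω U)

end sections

/-- A place of the field `M` with values in the field `C`: a valuation ring with an embedding of its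
residue field in `C`, given as a homomorphism `ρ` on the valuation ring whose kernel is the maximal
ideal. -/
structure Place (M C : Type) [Field M] [Field C] where
  /-- the valuation ring -/
  V : ValuationSubring M
  /-- the residue map -/
  ρ : V →+* C
  unit : ∀ x : V, ρ x ≠ 0 → (x : M)⁻¹ ∈ V

/-- The place `p` of `M` turns the map `σ : M → M` into `τ : C → C`. -/
def Turns {M C : Type} [Field M] [Field C] (p : Place M C) (σ : M → M) (τ : C → C) : Prop :=
  ∀ x (hx : x ∈ p.V), ∃ h' : σ x ∈ p.V, p.ρ ⟨σ x, h'⟩ = τ (p.ρ ⟨x, hx⟩)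

/-- The splitting `s` is given over the field `L` with algebraic closure `C` by the place `p` of `M`
with values in `C` (that is, for `M = F_U`, by a point of `U` or a cusp over `L`): for all
`τ ∈ Gal(C/L)` there is `σ` such that `p` turns the action of `s(σ)` into the one of `τ`. (Such a `σ`
is the restriction of `τ` to `ℚ̄ ⊆ F_U`, embedded in `C` by `p`.) -/
def GivenBy {k F Ω K M : Type} [Field k] [Field F] [Field Ω] [Field K] [Field M] [Algebra k K]
    [Algebra F M] [Algebra K Ω] [Algebra M Ω] (s : Splitting k F Ω K M) (L : Type) {C : Type}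
    [Field L] [Field C] [Algebra L C] (p : Place M C) : Prop :=
  ∀ τ : C ≃ₐ[L] C, ∃ σ, Turns p (s.toHom σ) τ

/-- The splitting is locally geometric: it is given over `ℝ` and over all `ℚ_q` by places. -/
def LocallyGeometric {k F Ω K M : Type} [Field k] [Field F] [Field Ω] [Field K] [Field M]
    [Algebra k K] [Algebra F M] [Algebra K Ω] [Algebra M Ω] (s : Splitting k F Ω K M) : Prop :=
  (∃ p : Place M (AlgebraicClosure ℝ), GivenBy s ℝ p) ∧
    ∀ (q : ℕ) [Fact q.Prime], ∃ p : Place M (AlgebraicClosure ℚ_[q]), GivenBy s ℚ_[q] p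

/-- the field of the elements of `M` fixed by all `s(σ)` -/
def FixedField {k F Ω K M : Type} [Field k] [Field F] [Field Ω] [Field K] [Field M]
    [Algebra k K] [Algebra F M] [Algebra K Ω] [Algebra M Ω] (s : Splitting k F Ω K M) : Type :=
  IntermediateField.fixedField s.toHom.range

noncomputable instance fieldFixed {k F Ω K M : Type} [Field k] [Field F] [Field Ω] [Field K]
    [Field M] [Algebra k K] [Algebra F M] [Algebra K Ω] [Algebra M Ω] (s : Splitting k F Ω K M) :
    Field (FixedField s) :=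
  (inferInstance : Field (IntermediateField.fixedField s.toHom.range))

noncomputable instance algebraFixed {k F Ω K M : Type} [Field k] [Field F] [Field Ω] [Field K]
    [Field M] [Algebra k K] [Algebra F M] [Algebra K Ω] [Algebra M Ω] (s : Splitting k F Ω K M) :
    Algebra F (FixedField s) :=
  (inferInstance : Algebra F (IntermediateField.fixedField s.toHom.range))

instance charZeroFixed {k F Ω K M : Type} [Field k] [Field F] [Field Ω] [Field K]
    [Field M] [Algebra k K] [Algebra F M] [Algebra K Ω] [Algebra M Ω] (s : Splitting k F Ω K M)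
    [CharZero F] : CharZero (FixedField s) :=
  charZero_of_injective_algebraMap (algebraMap F (FixedField s)).injective

open Classical in
/-- Let `R` be an extension of `F` and `P` a point over `F` of `E : y² = x³ + A x + B`. There is a
rational point `T` of `E` such that `P - T` is in `2 ^ m E(R)` for all `m`. -/
def RationalProTwo {A B : ℤ} {F : Type} (R : Type) [Field F] [Field R] [CharZero R] [Algebra F R]
    (P : Pt A B F) : Prop :=
  ∃ T : Pt A B ℚ, ∀ m : ℕ, ∃ S : Pt A B R,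
    WeierstrassCurve.Affine.Point.baseChange F R P =
      WeierstrassCurve.Affine.Point.baseChange ℚ R T + 2 ^ m • S

/-- For all locally geometric sections `s` of `π₁(U) → G_k` and all points `P` over `F` of
`E : y² = x³ + A x + B` there is a rational point `T` of `E` such that `P - T` is divisible by all
powers of `2` over the field of the elements fixed by `s`. -/
def AllSectionsRational (k F Ω : Type) [Field k] [Field F] [CharZero F] [Field Ω] [Algebra F Ω]
    [Algebra k Ω] (U : Set (ValuationSubring F)) (A B : ℤ) : Prop :=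
  ∀ s : GaloisSection k F Ω U, LocallyGeometric s →
    ∀ P : Pt A B F, RationalProTwo (FixedField s) P

/-- The curves `E : y² = x³ + c.1 x + c.2` such that for all fields `F` over `ℚ`, all sets `U` of
valuation rings of `F` over `ℚ`, all locally geometric sections `s` of `π₁(U) → G_ℚ` and all
`P ∈ E(F)` there is a rational point `T` of `E` such that `P - T` is divisible by all powers of `2`
over the field of the elements fixed by `s`. -/
def ProTwoRational : Set (ℤ × ℤ) :=
  {c | ∀ (F Ω : Type) [Field F] [CharZero F] [Field Ω] [Algebra ℚ F] [Algebra F Ω] [Algebra ℚ Ω]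
    [IsScalarTower ℚ F Ω] [IsAlgClosure F Ω] (U : Set (ValuationSubring F)),
    (∀ O ∈ U, ∀ a : ℚ, algebraMap ℚ F a ∈ O) → AllSectionsRational ℚ F Ω U c.1 c.2}

open Classical in
lemma rat_of {A B : ℤ} {F : Type} (R : Type) [Field F] [Field R] [CharZero R] [Algebra F R]
    (P : Pt A B F) (h : ∀ P' : Pt A B R, ∃ T : Pt A B ℚ, ∀ m : ℕ, ∃ S : Pt A B R,
      P' = WeierstrassCurve.Affine.Point.baseChange ℚ R T + 2 ^ m • S) : RationalProTwo R P :=
  h _

open Classical in
lemma all_of {k F Ω : Type} [Field k] [Field F] [CharZero F] [Field Ω] [Algebra F Ω] [Algebra k Ω]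
    {U : Set (ValuationSubring F)} {A B : ℤ}
    (h : ∀ G : Pool.Agent.W620.SC.GSection k F Ω U, Pool.Agent.Q284.SC.LocGeo G →
      ∀ P : ((W A B).baseChange (Pool.Agent.Q284.SC.FX G)).Point,
      ∃ T : ((W A B).baseChange ℚ).Point, ∀ m : ℕ, ∃ S,
        P = WeierstrassCurve.Affine.Point.baseChange ℚ (Pool.Agent.Q284.SC.FX G) T + 2 ^ m • S) :
    AllSectionsRational k F Ω U A B := by
  rintro s ⟨⟨p, hp⟩, h2⟩ P
  refine rat_of (FixedField s) P fun P' => ?_
  refine h ⟨s.toHom, s.cont, s.compat⟩ ⟨⟨⟨p.V, p.ρ, p.unit⟩, hp⟩, fun q _ => ?_⟩ P'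
  obtain ⟨p, hp⟩ := h2 q
  exact ⟨⟨p.V, p.ρ, p.unit⟩, hp⟩

lemma mem_of {c : ℤ × ℤ} (hD : 4 * c.1 ^ 3 + 27 * c.2 ^ 2 ≠ 0)
    (hT : Pool.Agent.W307.RT.HasT 2 (Pool.Agent.W307.RT.Sh c.1 c.2))
    (hf : (Pool.Agent.W307.SE.SelR c.1 c.2).Finite)
    (hc : (Pool.Agent.W307.SE.SelR c.1 c.2).ncard ≤ 4) : c ∈ ProTwoRational := by
  have hfin := Pool.Agent.Q323.SC.fin_of hD hT hf hc
  obtain ⟨e1, e2, e3, hp, h12, h13, h23, hrat⟩ := Pool.Agent.Q323.ZT.pr_of_sel hD hT hc
  intro F Ω _ _ _ _ _ _ _ _ U hU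
  have hcl : IsAlgClosed Ω := IsAlgClosure.isAlgClosed F
  have halg : Algebra.IsAlgebraic F Ω := IsAlgClosure.isAlgebraic
  exact all_of fun G hG P => Pool.Agent.Q323.SC.mainX hU hG hp h12 h13 h23 hrat hfin P

/-- The curves `E : y² = x³ + A x + B` such that for all the `2 ^ m` products `D = ∏_{i ∈ T} d_i` the
quadratic twist `E^D : y² = x³ + D² A x + D³ B` belongs to `ProTwoRational`. -/
def AllTwists {m : ℕ} (d : Fin m → ℕ) : Set (ℤ × ℤ) :=
  {c | ∀ (T : Finset (Fin m)) (D : ℤ), D = ∏ i ∈ T, (d i : ℤ) →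
    (D ^ 2 * c.1, D ^ 3 * c.2) ∈ ProTwoRational}

lemma tup_pos {m N : ℕ} {d : Fin m → ℕ} (h : Tuple N d) (i : Fin m) : (d i : ℤ) ≠ 0 := by
  obtain ⟨q, q', h1, h2, h3, -⟩ := h
  rw [h1 i]
  exact_mod_cast mul_ne_zero (h2 i).1.ne_zero (h3 i).1.ne_zero

lemma good_of {m N : ℕ} {d : Fin m → ℕ} (hd : Tuple N d) {c : ℤ × ℤ}
    (hD : 4 * c.1 ^ 3 + 27 * c.2 ^ 2 ≠ 0)
    (hT : ∃ f : ZMod 2 × ZMod 2 →+ (E c.1 c.2).toAffine.Point, Function.Injective f)
    (h : Pool.Agent.Y667.QK.TwS (fun j => (d j : ℤ)) c) : c ∈ AllTwists d := by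
  rintro T D rfl
  have hp : ∏ i ∈ T, (d i : ℤ) ≠ 0 := prod_ne_zero_iff.2 fun i _ => tup_pos hd i
  exact mem_of (c := ((∏ i ∈ T, (d i : ℤ)) ^ 2 * c.1, (∏ i ∈ T, (d i : ℤ)) ^ 3 * c.2))
    (Pool.Agent.Y723.QT.disc_q hp hD)
    (Pool.Agent.Y667.QK.hasT_tw hp hD (Pool.Agent.W307.RT.tors_iff.2 hT)) (h T).1 (h T).2.le

/-- the property without the size -/
def Pr (c : ℤ × ℤ) : Prop := 4 * c.1 ^ 3 + 27 * c.2 ^ 2 ≠ 0 ∧
    (∀ p : ℕ, p.Prime → ¬ ((p : ℤ) ^ 4 ∣ c.1 ∧ (p : ℤ) ^ 6 ∣ c.2)) ∧
    (∃ g : ZMod 2 × ZMod 2 →+ (E c.1 c.2).toAffine.Point, Function.Injective g)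

lemma good : Pool.Agent.Y679.Cr.Good Pr := by
  classical
  refine ⟨fun c hc => ⟨?_, ?_⟩, fun H c hc => ?_, Pool.Agent.W672.FK.lowf⟩
  · exact Pool.Agent.Y679.Cr.isMin_of hc.1 hc.2.1
  · exact Pool.Agent.Y679.Cr.full_of (Pool.Agent.W307.RT.tors_iff.2 hc.2.2)
  · unfold Pool.Agent.W307.RT.Cv at hc
    obtain ⟨-, h1, -, -, h2, h3⟩ := mem_filter.1 hc
    exact ⟨h1, h2, Pool.Agent.W307.RT.tors_iff.1 h3⟩

lemma cond_eq (c : ℤ × ℤ) : Pool.Agent.Y679.Cr.cs c = Cond6 c := by
  unfold Pool.Agent.Y679.Cr.cs Pool.Agent.H925R.Szpiro.condS Cond6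
  rw [Pool.Agent.Y679.Cr.D_neg, Int.natAbs_neg]
  refine prod_congr rfl fun p _ => ?_
  by_cases h : (p : ℤ) ∣ c.1
  · rw [if_pos h, if_pos (Int.dvd_neg.2 h)]
  · rw [if_neg h, if_neg fun h' => h (Int.dvd_neg.1 h')]

lemma bdd {f : ℤ × ℤ → ℕ} (hf : Factor f) : Pool.Agent.Y679.Cr.Bdd f :=
  fun c => ⟨(hf c).1, (hf c).2.trans (by norm_num)⟩

lemma FamC_eq (f : ℤ × ℤ → ℕ) (Z : ℕ) : Fam (CondLe f) Z = Pool.Agent.Y679.Cr.Gm Pr f Z := by
  ext c
  unfold Fam CondLe Pool.Agent.Y679.Cr.Gm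
  rw [Set.mem_ofPred_eq, Set.mem_ofPred_eq, cond_eq]
  exact ⟨fun h => ⟨⟨h.1, h.2.1, h.2.2.1⟩, h.2.2.2⟩, fun h => ⟨h.1.1, h.1.2.1, h.1.2.2, h.2⟩⟩

/-- the curves with the required 2-Selmer groups, in the three orderings -/
lemma key (I : ℤ × ℤ → ℕ → Prop)
    (hI : I = HeightLe ∨ I = DiscLe ∨ (∃ f : ℤ × ℤ → ℕ, Factor f ∧ I = CondLe f)) :
    (∀ Z : ℕ, (Fam I Z).Finite) ∧ Tendsto (fun Z : ℕ => (Fam I Z).ncard) atTop atTop ∧
    ∀ m N : ℕ, ∃ L : Finset (Fin m → ℕ), (∀ d ∈ L, Tuple N d) ∧ ∃ δ : ℝ, 0 < δ ∧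
      ∀ᶠ Z : ℕ in atTop, ∃ d ∈ L, (0 : ℝ) < ((Fam I Z).ncard : ℝ) ∧
        δ * ((Fam I Z).ncard : ℝ) ≤
          ((Fam I Z ∩ {k | Pool.Agent.Y667.QK.TwS (fun j => (d j : ℤ)) k}).ncard : ℝ) := by
  classical
  obtain ⟨β, hfl⟩ := Pool.Agent.Y388.QK.FLIP 17 (by norm_num) (by norm_num)
  rcases hI with rfl | rfl | ⟨f, hf, rfl⟩
  · have hfin : ∀ Z : ℕ, (Fam HeightLe Z).Finite := fun Z => by
      rw [FamH_eq]
      exact finite_toSet _
    refine ⟨hfin, tendstoH, fun m N => ?_⟩
    obtain ⟨L, hL, δ, hδ, H0, h⟩ :=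
      Pool.Agent.Y667.QK.main_h Pool.Agent.Y388.QK.PRM hfl m N
    refine ⟨L, hL, δ, hδ, ?_⟩
    filter_upwards [eventually_ge_atTop H0, tendstoH.eventually_ge_atTop 1] with H hH hH1
    obtain ⟨d, hd, hle⟩ := h H hH
    refine ⟨d, hd, by exact_mod_cast hH1, ?_⟩
    have e1 : (Fam HeightLe H).ncard = (Pool.Agent.W307.RT.Cv 2 H).card := by
      rw [FamH_eq, Set.ncard_coe_finset]
    rw [e1]
    refine hle.trans (Nat.cast_le.2 ?_)
    rw [← Set.ncard_coe_finset]
    refine Set.ncard_le_ncard (fun k hk => ?_) ((hfin H).inter_of_left _)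
    rw [mem_coe, mem_filter] at hk
    refine ⟨?_, hk.2⟩
    rw [FamH_eq, mem_coe]
    exact hk.1
  · have hfin : ∀ Z : ℕ, (Fam DiscLe Z).Finite := fun Z => by
      rw [FamD_eq]
      exact finite_toSet _
    refine ⟨hfin, tendstoD, fun m N => ?_⟩
    obtain ⟨L, hL, δ, hδ, H0, h⟩ :=
      Pool.Agent.Y667.QK.main_d Pool.Agent.Y388.QK.PRM hfl m N
    refine ⟨L, hL, δ, hδ, ?_⟩
    filter_upwards [eventually_ge_atTop H0, tendstoD.eventually_ge_atTop 1] with H hH hH1
    obtain ⟨d, hd, hle⟩ := h H hH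
    refine ⟨d, hd, by exact_mod_cast hH1, ?_⟩
    have e1 : (Fam DiscLe H).ncard = (Pool.Agent.TH344.DS.Dv H).card := by
      rw [FamD_eq, Set.ncard_coe_finset]
    rw [e1]
    refine hle.trans (Nat.cast_le.2 ?_)
    rw [← Set.ncard_coe_finset]
    refine Set.ncard_le_ncard (fun k hk => ?_) ((hfin H).inter_of_left _)
    rw [mem_coe, mem_filter] at hk
    refine ⟨?_, hk.2⟩
    rw [FamD_eq, mem_coe]
    exact hk.1
  · refine ⟨fun Z => ?_, ?_, fun m N => ?_⟩
    · rw [FamC_eq]
      exact Pool.Agent.Y679.Cr.Gm_fin good (bdd hf) Z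
    · simp only [FamC_eq]
      exact Pool.Agent.Y679.Cr.Gm_tendsto good (bdd hf)
    · obtain ⟨L, hL, δ₀, hδ₀, H0, h⟩ :=
        Pool.Agent.Y667.QK.main_h Pool.Agent.Y388.QK.PRM hfl m N
      obtain ⟨δ, hδ, Z0, hZ0⟩ := Pool.Agent.Q323.CO.posL good (L := L)
        (T := fun d c => Pool.Agent.Y667.QK.TwS (fun j => (d j : ℤ)) c) (by
        refine ⟨δ₀, hδ₀, H0, fun H hH => ?_⟩
        obtain ⟨d, hd, hle⟩ := h H hH
        refine ⟨d, hd, _, fun k hk => ?_, hle⟩
        exact mem_filter.1 (mem_coe.1 hk))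
      refine ⟨L, hL, δ, hδ, ?_⟩
      filter_upwards [eventually_ge_atTop Z0] with Z hZ
      obtain ⟨d, hd, h1⟩ := hZ0 Z hZ
      obtain ⟨h2, h3⟩ := h1 f (bdd hf)
      rw [← FamC_eq] at h2 h3
      exact ⟨d, hd, h2, h3⟩

/-- **Theorem.** Order the elliptic curves over `ℚ` with full rational 2-torsion by the naive height, by
the absolute value of the minimal discriminant, or by the conductor (with an arbitrary factor between
`1` and `2 ^ 8 * 3 ^ 5` in the place of its part composed of 2 and 3, and with no bound on the height).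
In each ordering there are finitely many curves of size at most `Z`, their number tends to infinity
with `Z`, and for all `m`, `N` there are a finite list `L` of tuples `d = (q_1 q'_1, ..., q_m q'_m)`
with `2 m` distinct primes larger than `N`, so that the `2 ^ m` products `D = ∏_{i ∈ T} d_i` are
different modulo squares, and `δ > 0` such that for all large `Z` for some `d` in `L` at least a
proportion `δ` of the curves of size at most `Z` is in `AllTwists d`: for all the `2 ^ m` quadratic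
twists `E^D` the locally geometric sections are given by rational points in the pro-2 quotient of the
fundamental group of `E^D`; and one `d` in `L` has this property for arbitrarily large `Z`. -/
theorem result : ∀ I : ℤ × ℤ → ℕ → Prop,
    I = HeightLe ∨ I = DiscLe ∨ (∃ f : ℤ × ℤ → ℕ, Factor f ∧ I = CondLe f) →
    (∀ Z : ℕ, (Fam I Z).Finite) ∧ Tendsto (fun Z : ℕ => (Fam I Z).ncard) atTop atTop ∧
    ∀ m N : ℕ, ∃ L : Finset (Fin m → ℕ), (∀ d ∈ L, Tuple N d) ∧
      ∃ δ : ℝ, 0 < δ ∧ (∀ᶠ Z : ℕ in atTop, ∃ d ∈ L, δ ≤ proportion I (AllTwists d) Z) ∧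
        ∃ d ∈ L, ∃ᶠ Z : ℕ in atTop, δ ≤ proportion I (AllTwists d) Z := by
  classical
  intro I hI
  obtain ⟨h1, h2, h3⟩ := key I hI
  refine ⟨h1, h2, fun m N => ?_⟩
  obtain ⟨L, hL, δ, hδ, h⟩ := h3 m N
  have hk : ∀ᶠ Z : ℕ in atTop, ∃ d ∈ L, δ ≤ proportion I (AllTwists d) Z := by
    filter_upwards [h] with Z hZ
    obtain ⟨d, hd, g1, g2⟩ := hZ
    refine ⟨d, hd, ?_⟩
    unfold proportion
    rw [le_div_iff₀ g1]
    refine g2.trans (Nat.cast_le.2 (Set.ncard_le_ncard ?_ ((h1 Z).inter_of_left _)))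
    rintro k ⟨h4, h5⟩
    exact ⟨h4, good_of (hL d hd) h4.1 h4.2.2.1 h5⟩
  exact ⟨L, hL, δ, hδ, hk, Pool.Agent.Q323.CO.pack L
    (fun d Z => δ ≤ proportion I (AllTwists d) Z) hk⟩

end Pool.Agent.Results.MP_c1dca2_ag.SimultaneousTwists
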