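import Pool.Agent.Results.MP_c1dca2_ag.SectionsAtFiniteLevels
import Pool.Agent.Q319.WN.Weak3

/-!
# The sections of ALL quadratic twists near the multiples and the dilates of almost every real number act like one rational
point at finite levels

Let `N ≥ 6` be even and let `e_1, …, e_N` be different integers which satisfy the condition `CrossRatio`, for instance
`0, 1, 2, 3, 4, 5`. Let `R = ℚ(x)` be a rational function field, `Ω` an algebraic closure of `R`, and `L_0, L_1, …` finite
Galois extensions of `R` in `Ω`, for instance all of them. For squarefree `d` let `C_d` be the curve `d y² = ∏ (x - e_k)`, of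
genus `N/2 - 1 ≥ 2`. `SectionsActLikePoints` says that every section of `π₁(U) → G_ℚ`, `U` the curve `C_d` or an open
subcurve, is attached to exactly one branch point and acts at the level `L` like the section of this point, up to
conjugation by elements of the geometric fundamental group, for every single `σ ∈ G_ℚ`.

1. For every `m` there is `δ > 0` such that this holds at the level `L_m` for ALL squarefree `d` with `||d| - n y| ≤ w`, for
   almost all real `y` of size `X ^ (1 - θ)` and all `n ≤ X ^ θ` with at most `C w X ^ θ / (log X) ^ δ` exceptions, and for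
   ALL squarefree `d` with `||d| - α v_n| ≤ w_n`, for almost every `α > 0` and all large `n`, if
   `∑ w_n / (log v_n) ^ δ` converges.
2. If `v_n` increases fast enough then for almost every real `α` and all large `n` it holds at ALL the levels `L_m`, `m ≤ n`,
   for ALL squarefree `d` with `|d - α v_n| ≤ n`.

From Mathlib: `Squarefree`; `volume`: the Lebesgue measure. The bound for the number of the exceptional twists is from the
starting file `SectionsAtFiniteLevels`, with the definitions; the count of the elements of arbitrary sets of integers in
intervals at multiples of real numbers is from the starting files, too (`Pool.Agent.H438R2.DL`). `ScarceAtMultiples` and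
`ScarceAtDilates` are defined in `Pool.Agent.Q319.WN.Weak`, `NullAtDilates` in `Pool.Agent.Q319.WN.One`.
-/

set_option autoImplicit false

namespace Pool.Agent.Results.MP_c1dca2_ag.TwistsAtRealMultiples

open Pool.Agent.Q319.WN Pool.Agent.Results.MP_c1dca2_ag.SectionsAtFiniteLevels

/-- Let the `N ≥ 6` branch points `e_i`, `N` even, be different and satisfy `CrossRatio`; let `L m` be finite Galois
extensions of the rational function field `R = ℚ(x)` in its algebraic closure `Ω`, `m = 0, 1, 2, …`. Let `P m d` be the
property that `d` is squarefree and `SectionsActLikePoints` is wrong for `d` and `L m`.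
1. For every `m` there is `δ > 0` such that `P m` is scarce at the multiples and at the dilates of almost every real number
   (`ScarceAtMultiples`, `ScarceAtDilates`).
2. All the properties `P m` are rare at the dilates of almost every real number at the same time (`NullAtDilates`). -/
theorem result (K : Type) [Fintype K] (e : K → ℤ) (he : Function.Injective e) (hev : Even (Fintype.card K))
    (hK : 6 ≤ Fintype.card K) (hCR : CrossRatio e)
    (R Ω : Type) [Field R] [Field Ω] [Algebra ℚ R] [Algebra R Ω] [Algebra ℚ Ω]
    [IsScalarTower ℚ R Ω] [IsAlgClosure R Ω] (x : R) (hx : Transcendental ℚ x)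
    (hR : IntermediateField.adjoin ℚ {x} = (⊤ : IntermediateField ℚ R))
    (L : ℕ → IntermediateField R Ω) (hL : ∀ m, FiniteDimensional R (L m)) (hG : ∀ m, IsGalois R (L m)) :
    (∀ m, ∃ δ : ℝ, 0 < δ ∧
      ScarceAtMultiples δ (fun d => Squarefree d ∧ ¬ SectionsActLikePoints ℚ e d x (L m)) ∧
      ScarceAtDilates δ (fun d => Squarefree d ∧ ¬ SectionsActLikePoints ℚ e d x (L m))) ∧
    NullAtDilates (fun m d => Squarefree d ∧ ¬ SectionsActLikePoints ℚ e d x (L m)) := by
  have h : ∀ m, ∃ δ C : ℝ, 0 < δ ∧ Scarce δ C (fun d => Squarefree d ∧ ¬ SectionsActLikePoints ℚ e d x (L m)) := by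
    intro m
    obtain ⟨δ, C, hδ, hC⟩ := SectionsAtFiniteLevels.result.1 K e he hev hK hCR R Ω x hx hR (L m) (hL m) (hG m)
    exact ⟨δ, C, hδ, fun X hX => hC X (by omega)⟩
  refine ⟨fun m => ?_, null_dilates fun m => ?_⟩
  · obtain ⟨δ, C, hδ, hC⟩ := h m
    exact ⟨δ, hδ, scarce_both hδ hC⟩
  · obtain ⟨δ, C, hδ, hC⟩ := h m
    exact scarce_null hδ hC

end Pool.Agent.Results.MP_c1dca2_ag.TwistsAtRealMultiples
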